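import Pool.Agent.Helper46.BMY.PFin

/-!
# MP_872606_gt: double planes branched along symplectic line arrangements

An arrangement of `d = m + 1 = 2 f` symplectic lines in the projective plane is given by its braid
monodromy factorisation `Δ² = ∏ g_j T_{k_j} g_j⁻¹` in Artin's braid group, `T_k` the full twist of `k`
adjacent strands: a point in which `k` lines meet (`IsSec m 1 l`). `IsSec m r l`: the same for sections
of the Hirzebruch surface `F_r`.
-/

set_option autoImplicit false

namespace Pool.Agent.Results.MP_872606_gt.DoubleCovers

open Pool.Agent.Helper46.DP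

/-- **Main theorem.** (1) For every arrangement of `d = 2 f ≥ 4` symplectic lines in the projective
plane which do not all pass through one point, the minimal resolution of the double plane branched
along it satisfies `c_1² + 2 (p - d) + ∑ (2 k + 4) ≤ 3 c_2`, where `p ≥ d` is the number of the
multiple points and the sum is over the points of odd multiplicity `k`; so `c_1² ≤ 3 c_2`.
(2) The same, with `c_1² + 8` instead of `c_1²`, holds for the double covers of `F_r`, `r ≥ 1`, branched
along `d` symplectic sections which do not meet the section of square `-r` and meet each other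
transversally, not all of them in every point. -/
theorem result :
    (∀ (m f : ℕ) (l : List (Pt m)), m + 1 = 2 * f → 2 ≤ f → IsSec m 1 l → (∃ P ∈ l, P.k ≤ m) →
      2 * f ≤ l.length ∧
      planeOne f l + 2 * (l.length - 2 * f) +
        (ptSum l fun k => if k % 2 = 1 then 2 * (k : ℤ) + 4 else 0) ≤ 3 * planeTwo f l ∧
      planeOne f l ≤ 3 * planeTwo f l) ∧
    (∀ (m f r : ℕ) (l : List (Pt m)), m + 1 = 2 * f → 2 ≤ f → IsSec m r l → (∃ P ∈ l, P.k ≤ m) →
      2 * f ≤ l.length ∧
      planeOneF f r l + 8 + 2 * (l.length - 2 * f) +
        (ptSum l fun k => if k % 2 = 1 then 2 * (k : ℤ) + 4 else 0) ≤ 3 * planeTwoF f r l) :=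
  main

end Pool.Agent.Results.MP_872606_gt.DoubleCovers
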