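import Pool.Agent.Helper8.PW.Final

/-!
# The Bogomolov-Miyaoka-Yau inequality for all covers of large pseudoline arrangements

Let `W` be an arrangement of `d` pseudolines, given by a wiring diagram
(`Pool.Agent.Helper8.PL.Wiring`). By Ruberman and Starkston it extends to an arrangement of
symplectic spheres in `CP^2` in the class of a line, which meet like complex lines. Give the
spheres weights `w i` and blow up a set `Bl` of vertices which contains all the vertices of
multiplicity at least three, with weights `z k` on the exceptional spheres. If all the weights are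
of the form `1 - 1 / n` and `Y` is a covering of the blown up plane which is branched with these
orders, then `c1sq` and `c2` are the Chern numbers of the symplectic manifold `Y` divided by the
degree of the covering.
If the weight of the lines that do not pass through a vertex, together with the weight of its
exceptional sphere, is less than two, then the pencil of the lines through the vertex is a
fibration of `Y` by spheres.
-/

namespace Pool.Agent.Results.MP_872606_gt.LargePseudolines

open Finset

open Pool.Agent.Helper8.PL (Wiring)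

/-- The square of the canonical class of the weighted arrangement: the weights `w i` are on the
lines, the vertices in `Bl` are blown up and the exceptional spheres have the weights `z k`. It is
the square of `(X - 3) H + ∑ k ∈ Bl, (1 + z k - S k) E k`, where `X` is the sum of all `w i` and
`S k` is the sum of the `w i` over the lines through the vertex `k`. -/
noncomputable def c1sq {d : ℕ} (W : Wiring d) (w : Fin d → ℝ) (z : ℕ → ℝ) (Bl : Finset ℕ) : ℝ :=
  (∑ i, w i - 3) ^ 2 - ∑ k ∈ Bl, (1 + z k - ∑ i ∈ W.B k, w i) ^ 2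

/-- The Euler number of the weighted arrangement: the sum over the strata of the blown up complex
projective plane of their Euler number times the product of one minus the weights. The strata are
the complement of the lines, the lines without the vertices, the vertices that are not blown up,
the exceptional spheres without their intersections with the lines, and these intersections. -/
noncomputable def c2 {d : ℕ} (W : Wiring d) (w : Fin d → ℝ) (z : ℕ → ℝ) (Bl : Finset ℕ) : ℝ :=
  (3 - 2 * d + ∑ k ∈ range W.M, (W.mult k : ℝ) - W.M) +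
    ∑ i, (1 - w i) * (2 - ((range W.M).filter fun k => i ∈ W.B k).card) +
    ∑ k ∈ range W.M \ Bl, ∏ i ∈ W.B k, (1 - w i) +
    ∑ k ∈ Bl, (1 - z k) * ((2 - W.mult k) + ∑ i ∈ W.B k, (1 - w i))

/-- For every `ε > 0` there are `κ > 0` and `D` such that for every arrangement of `d ≥ D`
pseudolines, all weights in `[1 / 2, 1]` on the lines and all weights in `[0, 1]` on the exceptional
spheres: `c1sq ≤ 3 c2` if no pencil is rational, and `c1sq ≤ (3 - κ) c2` if every pencil has at most
`1 - ε` of the weight. -/
theorem result : ∀ ε : ℝ, 0 < ε → ∃ κ : ℝ, 0 < κ ∧ ∃ D : ℕ, ∀ d : ℕ, D ≤ d →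
    ∀ (W : Wiring d) (w : Fin d → ℝ) (z : ℕ → ℝ) (Bl : Finset ℕ),
      (∀ i, 1 / 2 ≤ w i ∧ w i ≤ 1) → (∀ k, 0 ≤ z k ∧ z k ≤ 1) →
      Bl ⊆ range W.M → (∀ k < W.M, k ∉ Bl → W.mult k = 2) →
        ((∀ k ∈ Bl, ∑ i ∈ W.B k, w i - z k ≤ ∑ i, w i - 2) →
          c1sq W w z Bl ≤ 3 * c2 W w z Bl) ∧
        ((∀ k ∈ Bl, ∑ i ∈ W.B k, w i ≤ (1 - ε) * ∑ i, w i) →
          c1sq W w z Bl ≤ (3 - κ) * c2 W w z Bl) := by
  intro ε hε
  obtain ⟨ε', hε'0, hε'1, hε'2⟩ : ∃ ε' : ℝ, 0 < ε' ∧ ε' ≤ 1 / 4 ∧ ε' ≤ ε :=
    ⟨min (1 / 4) ε, by positivity, min_le_left _ _, min_le_right _ _⟩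
  obtain ⟨κ, hκ, H⟩ := Pool.Agent.Helper8.PW.pw_main hε'0
  obtain ⟨D, hD⟩ := exists_nat_ge (2 / κ + 8 / ε')
  refine ⟨κ, hκ, D, ?_⟩
  intro d hd W w z Bl hwi hzk hBl hmult
  have hX : (d : ℝ) / 2 ≤ ∑ i, w i := by
    have h1 : ∑ _i : Fin d, (1 / 2 : ℝ) ≤ ∑ i, w i := sum_le_sum fun i _ => (hwi i).1
    rw [sum_const, card_univ, Fintype.card_fin, nsmul_eq_mul] at h1
    linarith
  have hdD : 2 / κ + 8 / ε' ≤ d := hD.trans (by exact_mod_cast hd)
  have h2κ : 0 < 2 / κ := by positivity
  have h8 : 0 < 8 / ε' := by positivity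
  set X := ∑ i, w i with hXdef
  have hX1 : 1 / κ ≤ X := by
    have : 2 / κ / 2 ≤ (d : ℝ) / 2 := by linarith
    have e : 2 / κ / 2 = 1 / κ := by ring
    rw [e] at this
    linarith
  have hX2 : 4 / ε' ≤ X := by
    have : 8 / ε' / 2 ≤ (d : ℝ) / 2 := by linarith
    have e : 8 / ε' / 2 = 4 / ε' := by ring
    rw [e] at this
    linarith
  have hκX : 1 ≤ κ * X := by
    have := mul_le_mul_of_nonneg_left hX1 hκ.le
    rwa [mul_one_div_cancel hκ.ne'] at this
  have hεX : 4 ≤ ε' * X := by
    have := mul_le_mul_of_nonneg_left hX2 hε'0.le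
    rwa [mul_div_cancel₀ _ hε'0.ne'] at this
  have hXpos : 16 ≤ X := by nlinarith
  constructor
  · intro h
    have h1 := H W w z Bl X (X - 2) hXdef (Or.inl fun i => ⟨by linarith [(hwi i).1], (hwi i).2⟩)
      hκX hBl hmult (fun k _ _ => (hzk k).1) (by linarith) le_rfl
      (fun k hk _ => by linarith [h k hk])
    have h2 := h1.1
    have e : κ * (X * (X - 2 - (X - 2))) = 0 := by ring
    rw [e, add_zero] at h2
    exact h2
  · intro h
    have h1 := H W w z Bl X ((1 - ε') * X) hXdef
      (Or.inl fun i => ⟨by linarith [(hwi i).1], (hwi i).2⟩)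
      hκX hBl hmult (fun k _ _ => (hzk k).1) (by nlinarith) (by nlinarith)
      (fun k hk _ => by
        have h2 := h k hk
        have h3 : ε' * X ≤ ε * X := mul_le_mul_of_nonneg_right hε'2 (by linarith)
        have h4 := (hzk k).1
        nlinarith)
    exact h1.2 (fun i => by linarith [(hwi i).1]) (fun k _ => hzk k) le_rfl

end Pool.Agent.Results.MP_872606_gt.LargePseudolines
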