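import Mathlib
import Pool.Agent.Helper81.SL.Main

/-!
# MP_872606_gt: symplectic line arrangements with at most quadruple points
-/

set_option autoImplicit false

namespace Pool.Agent.Results.MP_872606_gt.SymplecticLines

open Pool.Agent.Helper81.SL

/-- Let `Δ² = ∏ g_j T_{k_j} g_j⁻¹` be a factorisation of the full twist on `d = m + 1` strands into
conjugates of full twists of `k_j ≤ 4` adjacent strands. If `d ≥ 20000`, then `t_2 + t_3 ≥ d`, and
the Chern numbers of all Hirzebruch covers satisfy `c_1² ≤ 3 c_2`. For every `ε > 0` and all large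
`d`: `t_2 + t_3 ≥ (3/2 - ε) d` for even `d` and `t_2 + t_3 ≥ (7/6 - ε) d` for odd `d`. -/
theorem result :
    (∀ (m : ℕ) (l : List (Pt m)), 20000 ≤ m + 1 → IsArr l → (∀ P ∈ l, P.k ≤ 4) →
      m + 1 ≤ tk l 2 + tk l 3 ∧ ∀ n : ℤ, 2 ≤ n → cOneSq l n ≤ 3 * cTwo l n) ∧
    ∀ ε : ℝ, 0 < ε → ∃ N : ℕ, ∀ (m : ℕ) (l : List (Pt m)), N ≤ m + 1 → IsArr l →
      (∀ P ∈ l, P.k ≤ 4) →
        (Even (m + 1) → (3 / 2 - ε) * (m + 1) ≤ (tk l 2 : ℝ) + tk l 3) ∧
        (Odd (m + 1) → (7 / 6 - ε) * (m + 1) ≤ (tk l 2 : ℝ) + tk l 3) := main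

end Pool.Agent.Results.MP_872606_gt.SymplecticLines
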