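import Mathlib
import Pool.Agent.Helper14.TCV.Main2

/-!
# MP_872606_gt: coverings of the four-torus and of other symplectic four-manifolds with `b⁻ ≤ 3`

`X` is a closed symplectic four-manifold with canonical class `K` and Euler number `e`, `V = H_2(X; ℝ)`
and `B` is the intersection form. The `C_i` are symplectic surfaces of genus `g i` and of square `≤ 0`,
which meet positively in ordinary points of any multiplicity; `t i` is the class of `C_i` (`IsArr`), `S p`
is the set of the surfaces through the point `p`. The points of `Bl` are blown up, the others are double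
points. For the weights `w i = 1 - 1 / n_i` and `z p = 1 - 1 / ν_p` the numbers `cOneSq`, `cTwo` are the Chern
numbers, divided by the degree, of the coverings which are branched with the orders `n_i` along `C_i` and
`ν_p` along the exceptional sphere over `p`.
-/

set_option autoImplicit false

open Finset

namespace Pool.Agent.Results.MP_872606_gt.TorusCoverings

variable {k m : ℕ}

/-- The number of common points of the surfaces `i` and `j`, where `S p` is the set of the surfaces
through the point `p`. -/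
def num (S : Fin m → Finset (Fin k)) (i j : Fin k) : ℕ := (univ.filter fun p => i ∈ S p ∧ j ∈ S p).card

/-- The number of points on the surface `i`. -/
def deg (S : Fin m → Finset (Fin k)) (i : Fin k) : ℕ := (univ.filter fun p => i ∈ S p).card

/-- The negative index of the form `B` on the subspace `U` is at most `N`: subspaces of `U` on which the
form is negative definite have dimension at most `N`. -/
def NegLE {V : Type} [AddCommGroup V] [Module ℝ V] (B : LinearMap.BilinForm ℝ V) (U : Submodule ℝ V) (N : ℕ) :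
    Prop :=
  ∀ W : Submodule ℝ V, W ≤ U → (∀ x ∈ W, x ≠ 0 → B x x < 0) → Module.finrank ℝ W ≤ N

/-- `V = H_2(X; ℝ)`, `B` is the intersection form, `K` the canonical class. The `t i` are the classes of
surfaces of genus `g i` and nonpositive square, for which adjunction holds, and which meet pairwise
positively and transversally, with the incidences `S`. -/
structure IsArr {V : Type} [AddCommGroup V] [Module ℝ V] (B : LinearMap.BilinForm ℝ V) (K : V)
    (S : Fin m → Finset (Fin k)) (g : Fin k → ℕ) (t : Fin k → V) : Prop where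
  sq : ∀ i, B (t i) (t i) ≤ 0
  adj : ∀ i, B K (t i) + B (t i) (t i) = 2 * g i - 2
  inter : ∀ i j, i ≠ j → B (t i) (t j) = num S i j

/-- `c_2` divided by the degree, `e = e(X)`: the sum over the strata of Euler number times product of
`1 - weight`; the points of `Bl` are blown up, `z p` is the weight of the exceptional sphere over `p`. -/
noncomputable def cTwo (S : Fin m → Finset (Fin k)) (e : ℝ) (g : Fin k → ℕ) (Bl : Finset (Fin m))
    (w : Fin k → ℝ) (z : Fin m → ℝ) : ℝ :=
  (e + ∑ i, (2 * (g i : ℝ) - 2) + ∑ p, (((S p).card : ℝ) - 1)) +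
    ∑ i, (2 - 2 * (g i : ℝ) - deg S i) * (1 - w i) +
    ∑ p ∈ univ \ Bl, ∏ i ∈ S p, (1 - w i) +
    ∑ p ∈ Bl, ((2 - ((S p).card : ℝ)) * (1 - z p) + ∑ i ∈ S p, (1 - w i) * (1 - z p))

/-- `c_1²` divided by the degree: the square of `K + ∑ w_i C_i + ∑ (1 + z_p - s_p) E_p`, where `q` is the
square of `K + ∑ w_i C_i` in `X` and `s_p` is the sum of the `w_i` over the surfaces through `p`. -/
noncomputable def cOneSq (S : Fin m → Finset (Fin k)) (q : ℝ) (Bl : Finset (Fin m)) (w : Fin k → ℝ)
    (z : Fin m → ℝ) : ℝ :=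
  q - ∑ p ∈ Bl, (1 + z p - ∑ i ∈ S p, w i) ^ 2

/-- The intersection number in `T⁴` of two tori with the matrices `A`, `A'` on `H_1`: the determinant
of the matrix with the columns of `A` and of `A'`. -/
def inter (A A' : Matrix (Fin 4) (Fin 2) ℤ) : ℤ :=
  Matrix.det (n := Fin 4) (fun i => Fin.append (A i) (A' i))

/-- The real matrix. -/
def toR (A : Matrix (Fin 4) (Fin 2) ℤ) : Matrix (Fin 4) (Fin 2) ℝ := A.map (Int.cast : ℤ → ℝ)

/-- **Main theorem.** Let `b⁻(X) ≤ 3` and `K² ≤ 3 e(X)`, for example `X` the four-torus or any bundle of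
tori over a torus. Then `c_1² ≤ 3 c_2` for all coverings of `X`, with any branching orders, branched
along symplectic surfaces of squares `C_i² ≤ 0` and genus `g_i ≥ 1 - C_i²`. If `X` is the four-torus
(`K = 0`, `e = 0`, the `C_i` are linear tori `A i : ℤ² → ℤ⁴`) and `c_1² = 3 c_2`, where every `C_i` has
positive weight and meets another one, then all the planes `H_1(C_i; ℝ)` in `ℝ⁴` are complex lines, with
the right orientation, for ONE complex structure `J` of `ℝ⁴`. -/
theorem result (V : Type) [AddCommGroup V] [Module ℝ V] (B : LinearMap.BilinForm ℝ V)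
    (hB : ∀ x y, B x y = B y x) (hN : NegLE B ⊤ 3) (K : V) (e : ℝ) (he : B K K ≤ 3 * e)
    (k m : ℕ) (S : Fin m → Finset (Fin k)) (g : Fin k → ℕ) (t : Fin k → V) (h : IsArr B K S g t)
    (hg : ∀ i, 1 - B (t i) (t i) ≤ g i) (Bl : Finset (Fin m)) (hBl : ∀ p ∉ Bl, (S p).card = 2)
    (w : Fin k → ℝ) (hw : ∀ i, 0 ≤ w i ∧ w i ≤ 1) (z : Fin m → ℝ) (c₁sq c₂ : ℝ)
    (hc₁ : c₁sq = cOneSq S (B (K + ∑ i, w i • t i) (K + ∑ i, w i • t i)) Bl w z)
    (hc₂ : c₂ = cTwo S e g Bl w z) :
    c₁sq ≤ 3 * c₂ ∧
    (K = 0 → e = 0 → 0 < k → (∀ i, 0 < w i ∧ ∃ j, j ≠ i ∧ 0 < num S i j) →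
      ∀ A : Fin k → Matrix (Fin 4) (Fin 2) ℤ, (∀ i j, B (t i) (t j) = inter (A i) (A j)) →
        c₁sq = 3 * c₂ →
          ∃ J : Matrix (Fin 4) (Fin 4) ℝ, J * J = -1 ∧
            ∀ i, ∃ c : Matrix (Fin 2) (Fin 2) ℝ, J * toR (A i) = toR (A i) * c ∧ 0 < c 1 0) := by
  have h' : Pool.Agent.Helper26.TOR.IsArr B K S g t := ⟨h.sq, h.adj, h.inter⟩
  obtain ⟨h1, h2⟩ :=
    Pool.Agent.Helper14.TCV.main V B hB hN K e he k m S g t h' hg Bl hBl w hw z c₁sq c₂ hc₁ hc₂
  exact ⟨h1, fun hK he0 hk hn A hA => h2 hK he0 hk hn A fun i j => by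
    rw [← Pool.Agent.Helper14.TCV.det_append]
    exact hA i j⟩

end Pool.Agent.Results.MP_872606_gt.TorusCoverings
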